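import Pool.Agent.Work.MP_db9399_ow.Interface

/-!
# MP_db9399, block LOC2 of OWN: two local minima (helper79)
-/

set_option autoImplicit false

namespace Pool.Agent.Work.MP_db9399_ow.helper79

open Finset Classical
open Pool.Agent.Work.MP_db9399_all (nb mis pr DepOnI)
open Pool.Agent.Work.MP_db9399_en

universe u

/-- probability of a box -/
theorem ex_box {J : Type u} [Fintype J] {M : ℕ} (hM : 0 < M) (X : Finset J)
    (B : J → Finset (Fin M)) :
    ex (fun ω : J → Fin M => if ∀ y ∈ X, ω y ∈ B y then (1 : ℝ) else 0) =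
      ∏ y ∈ X, (((B y).card : ℝ) / M) := by
  have h1 : (univ.filter (fun ω : J → Fin M => ∀ y ∈ X, ω y ∈ B y)) =
      Fintype.piFinset (fun y => if y ∈ X then B y else univ) := by
    ext ω
    simp only [mem_filter, mem_univ, true_and, Fintype.mem_piFinset]
    refine forall_congr' fun y => ?_
    by_cases h : y ∈ X <;> simp [h]
  have hM0 : (M : ℝ) ≠ 0 := by
    have : (0 : ℝ) < M := by exact_mod_cast hM
    exact this.ne'
  have h2 : (Fintype.card (J → Fin M) : ℝ) = ∏ _y : J, (M : ℝ) := by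
    simp
  rw [ex, Finset.sum_boole, h1, Fintype.card_piFinset, h2]
  push_cast
  rw [← Finset.prod_div_distrib]
  have h3 : ∀ y : J, (((if y ∈ X then B y else univ : Finset (Fin M)).card : ℝ) / M) =
      if y ∈ X then ((B y).card : ℝ) / M else 1 := by
    intro y
    by_cases h : y ∈ X
    · simp [h]
    · simp [h, hM0]
  rw [Finset.prod_congr rfl fun y _ => h3 y, Finset.prod_ite_mem, univ_inter]

theorem ex_box' {J : Type u} [Fintype J] {M : ℕ} (hM : 0 < M) (X : Finset J)
    (B : J → Finset (Fin M)) (hd : ∀ ω : J → Fin M, Decidable (∀ y ∈ X, ω y ∈ B y)) :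
    ex (fun ω : J → Fin M => @ite ℝ (∀ y ∈ X, ω y ∈ B y) (hd ω) 1 0) =
      ∏ y ∈ X, (((B y).card : ℝ) / M) := by
  rw [← ex_box hM X B]
  refine congrArg ex (funext fun ω => ?_)
  by_cases h : ∀ y ∈ X, ω y ∈ B y
  · rw [if_pos h, if_pos h]
  · rw [if_neg h, if_neg h]

theorem card_gt {M t : ℕ} (ht : t < M) :
    ((univ.filter (fun s : Fin M => t < (s : ℕ))).card : ℝ) / M = 1 - ((t : ℝ) + 1) / M := by
  have h1 : univ.filter (fun s : Fin M => t < (s : ℕ)) = Ioi (⟨t, ht⟩ : Fin M) := by
    ext s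
    simp [Fin.lt_def]
  have hM0 : (0 : ℝ) < M := by exact_mod_cast (Nat.zero_lt_of_lt ht)
  have h2 : (M - 1 - t : ℕ) + (t + 1) = M := by omega
  have h3 : ((M - 1 - t : ℕ) : ℝ) + (t + 1) = M := by exact_mod_cast h2
  rw [h1, Fin.card_Ioi]
  change ((M - 1 - t : ℕ) : ℝ) / M = _
  field_simp
  linarith

/-- the labels allowed at `x` -/
noncomputable def bx {V : Type u} [Fintype V] {M : ℕ} (G : SimpleGraph V) (v w : V) (t t' : ℕ)
    (x : V) : Finset (Fin M) :=
  if x = v then univ.filter (fun s : Fin M => (s : ℕ) = t)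
  else if x = w then univ.filter (fun s : Fin M => (s : ℕ) = t')
  else if x ∈ nb G v then
    (if x ∈ nb G w then univ.filter (fun s : Fin M => max t t' < (s : ℕ))
      else univ.filter (fun s : Fin M => t < (s : ℕ)))
  else univ.filter (fun s : Fin M => t' < (s : ℕ))

theorem card_eq' {M t : ℕ} (ht : t < M) :
    (univ.filter (fun s : Fin M => (s : ℕ) = t)).card = 1 := by
  rw [Finset.card_eq_one]
  refine ⟨⟨t, ht⟩, ?_⟩
  ext s
  simp [Fin.ext_iff]

/-- **LOC2** -/
theorem stmt_LOC2 : Stmt_LOC2.{u} := by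
  intro V _ P M T G U b v w hM hT hv hw hvw hadj
  set A := (nb G v ∩ U) \ nb G w with hA
  set B := (nb G w ∩ U) \ nb G v with hB
  set C := nb G v ∩ nb G w ∩ U with hC
  have hmem : ∀ x y : V, x ∈ nb G y ↔ G.Adj y x := fun x y => by simp [nb]
  have hvv : v ∉ nb G v := by simp [hmem]
  have hww : w ∉ nb G w := by simp [hmem]
  have hvw' : v ∉ nb G w := by
    rw [hmem]
    exact fun h => hadj h.symm
  have hwv' : w ∉ nb G v := by
    rw [hmem]
    exact hadj
  set Z : Finset V := insert v (insert w ((A ∪ B) ∪ C)) with hZ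
  -- the event as a union of boxes
  have key : ∀ ω : Fin P × V → Fin M,
      (if v ∈ loc G U T ω b ∧ w ∈ loc G U T ω b then (1 : ℝ) else 0) =
      ∑ t ∈ range T, ∑ t' ∈ range T,
        if ∀ y ∈ Z.image (fun x => (b, x)), ω y ∈ (bx G v w t t' y.2 : Finset (Fin M)) then
          (1 : ℝ) else 0 := by
    intro ω
    have hbox : ∀ t t' : ℕ, (∀ y ∈ Z.image (fun x => (b, x)),
        ω y ∈ (bx G v w t t' y.2 : Finset (Fin M))) ↔
        ((ω (b, v) : ℕ) = t ∧ (ω (b, w) : ℕ) = t' ∧ (∀ x ∈ nb G v ∩ U, t < (ω (b, x) : ℕ)) ∧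
          ∀ x ∈ nb G w ∩ U, t' < (ω (b, x) : ℕ)) := by
      intro t t'
      constructor
      · intro h
        have h' : ∀ x ∈ Z, ω (b, x) ∈ (bx G v w t t' x : Finset (Fin M)) := fun x hx =>
          h (b, x) (mem_image_of_mem _ hx)
        refine ⟨?_, ?_, ?_, ?_⟩
        · have := h' v (by simp [hZ])
          simpa [bx] using this
        · have := h' w (by simp [hZ])
          simpa [bx, hvw.symm] using this
        · intro x hx
          rw [mem_inter] at hx
          have hxv : x ≠ v := fun h => hvv (h ▸ hx.1)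
          have hxw : x ≠ w := fun h => hwv' (h ▸ hx.1)
          by_cases hxw' : x ∈ nb G w
          · have := h' x (by simp [hZ, hA, hB, hC, hx.1, hx.2, hxw'])
            simp [bx, hxv, hxw, hx.1, hxw'] at this
            exact this.1
          · have := h' x (by simp [hZ, hA, hB, hC, hx.1, hx.2, hxw'])
            simpa [bx, hxv, hxw, hx.1, hxw'] using this
        · intro x hx
          rw [mem_inter] at hx
          have hxv : x ≠ v := fun h => hvw' (h ▸ hx.1)
          have hxw : x ≠ w := fun h => hww (h ▸ hx.1)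
          by_cases hxv' : x ∈ nb G v
          · have := h' x (by simp [hZ, hA, hB, hC, hx.1, hx.2, hxv'])
            simp [bx, hxv, hxw, hx.1, hxv'] at this
            exact this.2
          · have := h' x (by simp [hZ, hA, hB, hC, hx.1, hx.2, hxv'])
            simpa [bx, hxv, hxw, hx.1, hxv'] using this
      · rintro ⟨h1, h2, h3, h4⟩ y hy
        obtain ⟨x, hx, rfl⟩ := mem_image.1 hy
        simp only
        by_cases hxv : x = v
        · subst hxv
          simp [bx, h1]
        by_cases hxw : x = w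
        · subst hxw
          simp [bx, hvw.symm, h2]
        simp only [hZ, mem_insert, hxv, hxw, false_or, mem_union, hA, hB, hC, mem_sdiff,
          mem_inter] at hx
        rcases hx with (hx | hx) | hx
        · simp only [bx, hxv, hxw, hx.1.1, hx.2, if_false, if_true, mem_filter, mem_univ, true_and]
          exact h3 x (mem_inter.2 hx.1)
        · simp only [bx, hxv, hxw, hx.2, if_false, mem_filter, mem_univ, true_and]
          exact h4 x (mem_inter.2 hx.1)
        · simp only [bx, hxv, hxw, hx.1.1, hx.1.2, if_false, if_true, mem_filter, mem_univ,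
            true_and]
          exact max_lt (h3 x (mem_inter.2 ⟨hx.1.1, hx.2⟩)) (h4 x (mem_inter.2 ⟨hx.1.2, hx.2⟩))
    simp only [hbox]
    have hloc : (v ∈ loc G U T ω b ∧ w ∈ loc G U T ω b) ↔
        ((ω (b, v) : ℕ) < T ∧ (ω (b, w) : ℕ) < T ∧
          (∀ x ∈ nb G v ∩ U, (ω (b, v) : ℕ) < (ω (b, x) : ℕ)) ∧
          ∀ x ∈ nb G w ∩ U, (ω (b, w) : ℕ) < (ω (b, x) : ℕ)) := by
      simp only [loc, mem_filter, hv, hw, true_and]
      tauto
    by_cases hev : v ∈ loc G U T ω b ∧ w ∈ loc G U T ω b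
    · rw [if_pos hev]
      rw [hloc] at hev
      obtain ⟨e1, e2, e3, e4⟩ := hev
      rw [Finset.sum_eq_single_of_mem (ω (b, v) : ℕ) (mem_range.2 e1),
        Finset.sum_eq_single_of_mem (ω (b, w) : ℕ) (mem_range.2 e2), if_pos ⟨rfl, rfl, e3, e4⟩]
      · intro t' _ ht'
        exact if_neg fun h => ht' h.2.1.symm
      · intro t _ ht
        exact Finset.sum_eq_zero fun t' _ => if_neg fun h => ht h.1.symm
    · rw [if_neg hev]
      symm
      refine Finset.sum_eq_zero fun t ht => Finset.sum_eq_zero fun t' ht' => if_neg ?_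
      rintro ⟨h1, h2, h3, h4⟩
      refine hev (hloc.2 ⟨?_, ?_, ?_, ?_⟩)
      · rw [h1]
        exact mem_range.1 ht
      · rw [h2]
        exact mem_range.1 ht'
      · rw [h1]
        exact h3
      · rw [h2]
        exact h4
  have h1 : (fun ω : Fin P × V → Fin M =>
      if v ∈ loc G U T ω b ∧ w ∈ loc G U T ω b then (1 : ℝ) else 0) = fun ω =>
      ∑ t ∈ range T, ∑ t' ∈ range T,
        if ∀ y ∈ Z.image (fun x => (b, x)), ω y ∈ (bx G v w t t' y.2 : Finset (Fin M)) then
          (1 : ℝ) else 0 := funext key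
  rw [h1, ex_sum]
  refine sum_congr rfl fun t ht => ?_
  rw [ex_sum]
  refine sum_congr rfl fun t' ht' => ?_
  have htM : t < M := (mem_range.1 ht).trans_le hT
  have htM' : t' < M := (mem_range.1 ht').trans_le hT
  refine (ex_box' hM (Z.image (fun x => (b, x))) (fun y => bx G v w t t' y.2) _).trans ?_
  rw [Finset.prod_image (fun x _ y _ h => (Prod.mk.inj h).2)]
  simp only
  have hvZ : v ∉ insert w ((A ∪ B) ∪ C) := by
    simp [hA, hB, hC, hvw, hvv, hvw']
  have hwZ : w ∉ (A ∪ B) ∪ C := by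
    simp [hA, hB, hC, hww, hwv']
  have hABC : Disjoint (A ∪ B) C := by
    rw [Finset.disjoint_left]
    intro x hx hx'
    simp only [hA, hB, hC, mem_union, mem_sdiff, mem_inter] at hx hx'
    tauto
  have hAB : Disjoint A B := by
    rw [Finset.disjoint_left]
    intro x hx hx'
    simp only [hA, hB, mem_sdiff, mem_inter] at hx hx'
    tauto
  rw [hZ, prod_insert hvZ, prod_insert hwZ, prod_union hABC, prod_union hAB]
  have pv : ((bx G v w t t' v : Finset (Fin M)).card : ℝ) / M = 1 / M := by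
    simp [bx, card_eq' htM]
  have pw : ((bx G v w t t' w : Finset (Fin M)).card : ℝ) / M = 1 / M := by
    simp [bx, hvw.symm, card_eq' htM']
  have pA : ∏ x ∈ A, (((bx G v w t t' x : Finset (Fin M)).card : ℝ) / M) =
      (1 - ((t : ℝ) + 1) / M) ^ A.card := by
    rw [Finset.prod_congr rfl (g := fun _ => (1 - ((t : ℝ) + 1) / M)), prod_const]
    intro x hx
    simp only [hA, mem_sdiff, mem_inter] at hx
    have hxv : x ≠ v := fun h => hvv (h ▸ hx.1.1)
    have hxw : x ≠ w := fun h => hwv' (h ▸ hx.1.1)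
    simp only [bx, hxv, hxw, hx.1.1, hx.2, if_false, if_true]
    exact card_gt htM
  have pB : ∏ x ∈ B, (((bx G v w t t' x : Finset (Fin M)).card : ℝ) / M) =
      (1 - ((t' : ℝ) + 1) / M) ^ B.card := by
    rw [Finset.prod_congr rfl (g := fun _ => (1 - ((t' : ℝ) + 1) / M)), prod_const]
    intro x hx
    simp only [hB, mem_sdiff, mem_inter] at hx
    have hxv : x ≠ v := fun h => hvw' (h ▸ hx.1.1)
    have hxw : x ≠ w := fun h => hww (h ▸ hx.1.1)
    simp only [bx, hxv, hxw, hx.2, if_false]
    exact card_gt htM'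
  have pC : ∏ x ∈ C, (((bx G v w t t' x : Finset (Fin M)).card : ℝ) / M) =
      (1 - (((max t t' : ℕ) : ℝ) + 1) / M) ^ C.card := by
    rw [Finset.prod_congr rfl (g := fun _ => (1 - (((max t t' : ℕ) : ℝ) + 1) / M)), prod_const]
    intro x hx
    simp only [hC, mem_inter] at hx
    have hxv : x ≠ v := fun h => hvv (h ▸ hx.1.1)
    have hxw : x ≠ w := fun h => hww (h ▸ hx.1.2)
    simp only [bx, hxv, hxw, hx.1.1, hx.1.2, if_false, if_true]
    exact card_gt (max_lt htM htM')
  rw [pv, pw, pA, pB, pC]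
  ring

end Pool.Agent.Work.MP_db9399_ow.helper79
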