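import Pool.Agent.Work.MP_db9399_ow.Interface

/-!
# MP_db9399, block OWN of OWN: from ITER, SUBL, LSTL (helper79)
-/

set_option autoImplicit false

namespace Pool.Agent.Work.MP_db9399_ow.helper79

open Finset Classical
open Pool.Agent.Work.MP_db9399_all (nb mis pr DepOnI)
open Pool.Agent.Work.MP_db9399_en

universe u

section defs
variable {V : Type u} [Fintype V] {P : ℕ} {J : Type u}

/-- the tests for ITER -/
noncomputable def gg (G : SimpleGraph V) (d : ℕ) (g : J → Fin P → V → ℝ)
    (Fb : V → Finset (Fin P)) : J ⊕ (V ⊕ (J × Fin P)) → Fin P → V → ℝ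
  | Sum.inl j => fun b v => if b ∈ Fb v then 0 else g j b v
  | Sum.inr (Sum.inl v0) => fun b w => if w ∈ nb G v0 ∧ b ∈ Fb w then 1 / (2 * (d : ℝ)) else 0
  | Sum.inr (Sum.inr (j, b0)) => fun b v => if b ∈ Fb v then |g j b0 v| else 0

/-- variances -/
noncomputable def eg (e : J → ℝ) : J ⊕ (V ⊕ (J × Fin P)) → ℝ
  | Sum.inl j => e j
  | Sum.inr (Sum.inl _) => 1
  | Sum.inr (Sum.inr (j, _)) => e j

/-- supports -/
noncomputable def sg (G : SimpleGraph V) (S : J → Finset V) :
    J ⊕ (V ⊕ (J × Fin P)) → Finset V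
  | Sum.inl j => S j
  | Sum.inr (Sum.inl v0) => nb G v0
  | Sum.inr (Sum.inr (j, _)) => S j

theorem sig_gg [Fintype J] (G : SimpleGraph V) (d x C K : ℕ) (g : J → Fin P → V → ℝ)
    (Fb : V → Finset (Fin P)) (e : J → ℝ) (S : J → Finset V) (hx : 3 ≤ x) (hd : 0 < d)
    (hlog : Real.log d ≤ x) (hP : P ≤ 2 * d) (hdeg : ∀ v, ((nb G v).card : ℝ) ≤ 2 * d)
    (h : Sig ((x : ℝ) ^ K / d) (Real.exp ((x : ℝ) ^ C)) S g (fun j => e j / d)) :
    Sig ((x : ℝ) ^ K / d) (Real.exp ((x : ℝ) ^ (C + 2))) (sg (P := P) G S) (gg G d g Fb)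
      (fun j => eg (V := V) (P := P) e j / d) := by
  have hd0 : (0 : ℝ) < d := by exact_mod_cast hd
  have hx3 : (3 : ℝ) ≤ x := by exact_mod_cast hx
  have hxK : (1 : ℝ) ≤ (x : ℝ) ^ K := one_le_pow₀ (by linarith)
  have hxC : (1 : ℝ) ≤ (x : ℝ) ^ C := one_le_pow₀ (by linarith)
  have hbig : (x : ℝ) ^ C + x + 2 ≤ (x : ℝ) ^ (C + 2) := by
    have h1 : (x : ℝ) ^ (C + 2) = (x : ℝ) ^ C * x ^ 2 := by ring
    have h2 : 0 ≤ ((x : ℝ) ^ C - 1) * ((x : ℝ) ^ 2 - 1) :=
      mul_nonneg (by linarith) (by nlinarith)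
    rw [h1]
    nlinarith
  have hdx : (d : ℝ) ≤ Real.exp x := by
    rw [← Real.exp_log hd0]
    exact Real.exp_le_exp.2 hlog
  have he2 : (5 : ℝ) ≤ Real.exp 2 := by
    have h1 := Real.add_one_le_exp (1 : ℝ)
    have h2 : Real.exp 2 = Real.exp 1 * Real.exp 1 := by
      rw [← Real.exp_add]
      norm_num
    have h3 := Real.exp_one_gt_d9
    rw [h2]
    nlinarith
  have hCe : Real.exp ((x : ℝ) ^ C) ≤ Real.exp ((x : ℝ) ^ (C + 2)) :=
    Real.exp_le_exp.2 (by linarith)
  have hE1 : 1 ≤ Real.exp ((x : ℝ) ^ C) := Real.one_le_exp (by positivity)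
  have hprod : Real.exp ((x : ℝ) ^ C) * (5 * d) ≤ Real.exp ((x : ℝ) ^ (C + 2)) := by
    calc Real.exp ((x : ℝ) ^ C) * (5 * d) ≤ Real.exp ((x : ℝ) ^ C) *
          (Real.exp 2 * Real.exp x) := by
          refine mul_le_mul_of_nonneg_left ?_ (Real.exp_pos _).le
          exact mul_le_mul he2 hdx hd0.le (Real.exp_pos _).le
      _ = Real.exp ((x : ℝ) ^ C + x + 2) := by
          rw [← Real.exp_add, ← Real.exp_add]
          congr 1
          ring
      _ ≤ _ := Real.exp_le_exp.2 hbig
  refine ⟨?_, ?_, ?_, ?_, ?_, ?_, ?_⟩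
  · rintro (j | v0 | ⟨j, b0⟩) b v hv
    · simp only [sg] at hv
      simp only [gg, h.sup j b v hv, ite_self]
    · simp only [sg] at hv
      simp only [gg]
      exact if_neg fun h' => hv h'.1
    · simp only [sg] at hv
      simp only [gg, h.sup j b0 v hv, abs_zero, ite_self]
  · rintro (j | v0 | ⟨j, b0⟩) b v
    · simp only [gg]
      split_ifs
      · rw [abs_zero]
        positivity
      · exact h.le j b v
    · simp only [gg]
      split_ifs
      · rw [abs_of_pos (by positivity), div_le_div_iff₀ (by positivity) hd0]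
        nlinarith
      · rw [abs_zero]
        positivity
    · simp only [gg]
      split_ifs
      · rw [abs_abs]
        exact h.le j b0 v
      · rw [abs_zero]
        positivity
  · rintro (j | v0 | ⟨j, b0⟩) b
    · refine le_trans (sum_le_sum fun v _ => ?_) (h.sum j b)
      simp only [gg]
      split_ifs
      · rw [abs_zero]
        exact abs_nonneg _
      · exact le_rfl
    · have h1 : ∑ w, |gg G d g Fb (Sum.inr (Sum.inl v0)) b w| ≤
          ∑ w, if w ∈ nb G v0 then 1 / (2 * (d : ℝ)) else 0 := by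
        refine sum_le_sum fun w _ => ?_
        simp only [gg]
        by_cases hw : w ∈ nb G v0
        · simp only [hw, true_and, if_true]
          split_ifs
          · rw [abs_of_pos (by positivity)]
          · rw [abs_zero]
            positivity
        · simp only [hw, false_and, if_false, abs_zero, le_refl]
      refine h1.trans ?_
      rw [sum_ite_mem, univ_inter, sum_const, nsmul_eq_mul, mul_one_div,
        div_le_one (by positivity)]
      exact hdeg v0
    · refine le_trans (sum_le_sum fun v _ => ?_) (h.sum j b0)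
      simp only [gg]
      split_ifs
      · rw [abs_abs]
      · rw [abs_zero]
        exact abs_nonneg _
  · rintro (j | v0 | ⟨j, b0⟩) b
    · refine le_trans (sum_le_sum fun v _ => ?_) (h.sq j b)
      simp only [gg]
      split_ifs
      · nlinarith [sq_nonneg (g j b v)]
      · exact le_rfl
    · have h1 : ∑ w, gg G d g Fb (Sum.inr (Sum.inl v0)) b w ^ 2 ≤
          ∑ w, if w ∈ nb G v0 then (1 / (2 * (d : ℝ))) ^ 2 else 0 := by
        refine sum_le_sum fun w _ => ?_
        simp only [gg]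
        by_cases hw : w ∈ nb G v0
        · simp only [hw, true_and, if_true]
          split_ifs
          · exact le_rfl
          · rw [zero_pow two_ne_zero]
            positivity
        · simp only [hw, false_and, if_false]
          norm_num
      refine h1.trans ?_
      rw [sum_ite_mem, univ_inter, sum_const, nsmul_eq_mul]
      simp only [eg]
      have h2 := hdeg v0
      have h3 : ((nb G v0).card : ℝ) * (1 / (2 * (d : ℝ))) ^ 2 ≤
          2 * d * (1 / (2 * (d : ℝ))) ^ 2 := mul_le_mul_of_nonneg_right h2 (by positivity)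
      refine h3.trans ?_
      have h4 : 2 * (d : ℝ) * (1 / (2 * (d : ℝ))) ^ 2 = 1 / 2 / d := by
        field_simp
      rw [h4]
      exact div_le_div_of_nonneg_right (by norm_num) hd0.le
    · refine le_trans (sum_le_sum fun v _ => ?_) (h.sq j b0)
      simp only [gg]
      split_ifs
      · rw [sq_abs]
      · nlinarith [sq_nonneg (g j b0 v)]
  · rintro (j | v0 | ⟨j, b0⟩)
    · exact h.e0 j
    · simp only [eg]
      positivity
    · exact h.e0 j
  · rintro (j | v0 | ⟨j, b0⟩)
    · exact (h.card j).trans hCe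
    · refine (hdeg v0).trans ?_
      nlinarith
    · exact (h.card j).trans hCe
  · intro v
    have h1 : ((univ.filter (fun j => v ∈ sg (P := P) G S j)).card : ℝ) =
        ((univ.filter (fun j => v ∈ S j)).card : ℝ) + ((nb G v).card +
          ((univ.filter (fun j => v ∈ S j)).card : ℝ) * P) := by
      have e1 : (nb G v).card = (univ.filter (fun v0 => v ∈ nb G v0)).card := by
        congr 1
        ext w
        simp [nb, G.adj_comm]
      rw [e1]
      have e2 : ((univ.filter (fun j => v ∈ sg (P := P) G S j)).card : ℝ) =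
          ∑ j : J ⊕ (V ⊕ (J × Fin P)), if v ∈ sg (P := P) G S j then (1 : ℝ) else 0 := by
        rw [sum_boole]
      have e3 : ((univ.filter (fun j => v ∈ S j)).card : ℝ) =
          ∑ j : J, if v ∈ S j then (1 : ℝ) else 0 := by
        rw [sum_boole]
      have e4 : ((univ.filter (fun v0 => v ∈ nb G v0)).card : ℝ) =
          ∑ v0 : V, if v ∈ nb G v0 then (1 : ℝ) else 0 := by
        rw [sum_boole]
      have f1 : ∀ j : J, (if v ∈ sg (P := P) G S (Sum.inl j) then (1 : ℝ) else 0) =
          if v ∈ S j then (1 : ℝ) else 0 := by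
        intro j
        by_cases h : v ∈ S j
        · rw [if_pos h]
          exact if_pos h
        · rw [if_neg h]
          exact if_neg h
      have f2 : ∀ w : V, (if v ∈ sg (P := P) G S (Sum.inr (Sum.inl w)) then (1 : ℝ) else 0) =
          if v ∈ nb G w then (1 : ℝ) else 0 := by
        intro w
        by_cases h : v ∈ nb G w
        · rw [if_pos h]
          exact if_pos h
        · rw [if_neg h]
          exact if_neg h
      have f3 : ∀ (j : J) (b : Fin P),
          (if v ∈ sg (P := P) G S (Sum.inr (Sum.inr (j, b))) then (1 : ℝ) else 0) =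
          if v ∈ S j then (1 : ℝ) else 0 := by
        intro j b
        by_cases h : v ∈ S j
        · rw [if_pos h]
          exact if_pos h
        · rw [if_neg h]
          exact if_neg h
      rw [e2, Fintype.sum_sum_type, Fintype.sum_sum_type, Fintype.sum_prod_type]
      rw [sum_congr rfl fun j _ => f1 j, sum_congr rfl fun w _ => f2 w,
        sum_congr rfl fun j _ => sum_congr rfl fun b _ => f3 j b]
      have e5 : ∑ j : J, ∑ _b : Fin P, (if v ∈ S j then (1 : ℝ) else 0) =
          (∑ j : J, if v ∈ S j then (1 : ℝ) else 0) * P := by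
        simp only [sum_const, card_univ, Fintype.card_fin, nsmul_eq_mul]
        rw [← mul_sum, mul_comm]
      rw [e4, e3, e5]
    rw [h1]
    have h2 := h.mul v
    have h3 := hdeg v
    have hPr : (P : ℝ) ≤ 2 * d := by exact_mod_cast hP
    have h4 : ((univ.filter (fun j => v ∈ S j)).card : ℝ) * P ≤
        Real.exp ((x : ℝ) ^ C) * (2 * d) :=
      mul_le_mul h2 hPr (Nat.cast_nonneg _) (Real.exp_pos _).le
    have h5 : (1 : ℝ) ≤ d := by exact_mod_cast hd
    nlinarith

end defs

/-- **OWN** -/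
theorem stmt_OWN (hI : Stmt_ITER.{u}) (hS : Stmt_SUBL.{u}) (hL : Stmt_LSTL.{u}) :
    Stmt_OWN.{u} := by
  intro C K1 K
  obtain ⟨C1, N01, N1, x1, hI⟩ := hI (C + 2 * K1 + 8) (C + 2) K K1 (C + 2 * K1 + 10) (by omega)
  obtain ⟨C2, N2, x2, hS⟩ := hS C K K1
  refine ⟨C1 + C2 + 1, N01, N1 + N2 + 1, x1 + x2 + 16, ?_⟩
  intro V _ G d x P J R _ _ S g e Q Fb hx hlog hxN hP hPd hdeg hmis hSig hUpt hFb
  have hx1 : x1 ≤ x := by omega
  have hx2 : x2 ≤ x := by omega
  have hx16 : 16 ≤ x := by omega
  have hx16' : (16 : ℝ) ≤ x := by exact_mod_cast hx16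
  have hx0 : (0 : ℝ) < x := by linarith
  have hd : 0 < d := lt_of_lt_of_le (Nat.pow_pos (by omega)) hxN
  have hd0 : (0 : ℝ) < d := by exact_mod_cast hd
  have hxN1 : x ^ N1 ≤ d := (Nat.pow_le_pow_right (by omega) (by omega)).trans hxN
  have hxN2 : x ^ N2 ≤ d := (Nat.pow_le_pow_right (by omega) (by omega)).trans hxN
  have hpow : ∀ n : ℕ, (0 : ℝ) < (x : ℝ) ^ n := fun n => by positivity
  have hpow1 : ∀ n : ℕ, (1 : ℝ) ≤ (x : ℝ) ^ n := fun n => one_le_pow₀ (by linarith)
  have hdeg2 : ∀ v, ((nb G v).card : ℝ) ≤ 2 * d := by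
    intro v
    have h1 := (abs_le.1 (hdeg v)).2
    have h2 : (d : ℝ) / (x : ℝ) ^ N01 ≤ d := div_le_self hd0.le (hpow1 _)
    linarith
  have hdeg2' : ∀ v, (nb G v).card ≤ 2 * d := fun v => by exact_mod_cast hdeg2 v
  have hCe : Real.exp ((x : ℝ) ^ C) ≤ Real.exp ((x : ℝ) ^ (C + 2)) :=
    Real.exp_le_exp.2 (pow_le_pow_right₀ (by linarith) (by omega))
  have hsg := sig_gg G d x C K g Fb e S (by omega) hd hlog hP hdeg2 hSig
  have hUpt' : Upt (d * (x : ℝ) ^ K) (Real.exp ((x : ℝ) ^ (C + 2))) Q :=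
    ⟨hUpt.card, fun v => (hUpt.mul v).trans hCe⟩
  obtain ⟨U, c, i1, i2, i3, i4, i5, i6, i7⟩ := hI G d x P (J ⊕ (V ⊕ (J × Fin P))) R
    (sg (P := P) G S) (gg G d g Fb) (eg (V := V) (P := P) e) Q hx1 hlog hxN1 hP hPd hdeg hmis hsg
    hUpt'
  -- numbers
  set B : ℕ := C + 2 * K1 + 8 with hB
  have hxB1 : (x : ℝ) ^ B = (x : ℝ) ^ (C + 2 * K1 + 7) * x := by
    rw [hB, ← pow_succ]
  have hxE : (1 : ℝ) / (x : ℝ) ^ (C + 2 * K1 + 10) ≤ 1 / (x : ℝ) ^ B :=
    one_div_le_one_div_of_le (hpow _) (pow_le_pow_right₀ (by linarith) (by omega))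
  have hB16 : 16 * (1 / (x : ℝ) ^ B) ≤ 1 / (x : ℝ) ^ (C + 2 * K1 + 7) := by
    rw [hxB1, mul_one_div, div_le_div_iff₀ (by positivity) (hpow _)]
    nlinarith [hpow (C + 2 * K1 + 7)]
  have hxE2 : (1 : ℝ) / (x : ℝ) ^ (C + 2 * K1 + 10) ≤ 1 / (4 * x) := by
    refine one_div_le_one_div_of_le (by positivity) ?_
    calc 4 * (x : ℝ) ≤ (x : ℝ) ^ 2 := by nlinarith
      _ ≤ _ := pow_le_pow_right₀ (by linarith) (by omega)
  have hP0 : 0 < P := by
    have h1 : (d : ℝ) / (x : ℝ) ^ B ≤ d / 2 :=
      div_le_div_of_nonneg_left hd0.le (by norm_num) (by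
        have := hpow1 (C + 2 * K1 + 7)
        rw [hxB1]
        nlinarith)
    have h2 : (0 : ℝ) < P := by linarith
    exact_mod_cast h2
  -- the vertices to be coloured again
  set U' : Finset V := U ∪ univ.filter (fun v => v ∉ U ∧ c v ∈ Fb v) with hU'
  have hU'mem : ∀ v, v ∉ U' ↔ v ∉ U ∧ c v ∉ Fb v := by
    intro v
    simp only [hU', mem_union, mem_filter, mem_univ, true_and]
    tauto
  have hUU : U ⊆ U' := subset_union_left
  -- sums over U'
  have hsplit : ∀ F : V → ℝ, ∑ v ∈ U', F v = ∑ v ∈ U, F v +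
      ∑ v ∈ univ.filter (fun v => v ∉ U), if c v ∈ Fb v then F v else 0 := by
    intro F
    rw [hU', sum_union]
    · congr 1
      rw [← sum_filter, filter_filter]
    · rw [Finset.disjoint_left]
      intro v hv hv'
      exact (mem_filter.1 hv').2.1 hv
  -- (i)
  have hi : ∀ v, ((nb G v ∩ U').card : ℝ) ≤ d / (x : ℝ) ^ (C + 2 * K1 + 7) := by
    intro v
    have h1 : ((nb G v ∩ U').card : ℝ) = ∑ w ∈ U', if w ∈ nb G v then (1 : ℝ) else 0 := by
      rw [← sum_filter, sum_const, nsmul_eq_mul, mul_one]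
      congr 2
      ext w
      simp only [mem_inter, mem_filter]
      tauto
    have h2 : ((nb G v ∩ U).card : ℝ) = ∑ w ∈ U, if w ∈ nb G v then (1 : ℝ) else 0 := by
      rw [← sum_filter, sum_const, nsmul_eq_mul, mul_one]
      congr 2
      ext w
      simp only [mem_inter, mem_filter]
      tauto
    rw [h1, hsplit, ← h2]
    have h3 := i6 (Sum.inr (Sum.inl v))
    have h4 : ∑ w ∈ univ.filter (fun w => w ∉ U), |gg G d g Fb (Sum.inr (Sum.inl v)) (c w) w| =
        1 / (2 * d) * ∑ w ∈ univ.filter (fun w => w ∉ U),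
          if c w ∈ Fb w then (if w ∈ nb G v then (1 : ℝ) else 0) else 0 := by
      rw [mul_sum]
      refine sum_congr rfl fun w _ => ?_
      simp only [gg]
      by_cases hw : w ∈ nb G v
      · by_cases hc : c w ∈ Fb w
        · simp only [hw, hc, and_self, if_true, mul_one]
          exact abs_of_pos (by positivity)
        · simp only [hw, hc, and_false, if_false, mul_zero, abs_zero]
      · simp only [hw, false_and, if_false, ite_self, mul_zero, abs_zero]
    have h5 : ∑ b, ∑ w, |gg G d g Fb (Sum.inr (Sum.inl v)) b w| ≤ d / (x : ℝ) ^ B := by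
      rw [sum_comm]
      have h6 : ∀ w, ∑ b, |gg G d g Fb (Sum.inr (Sum.inl v)) b w| ≤
          if w ∈ nb G v then 1 / (2 * d) * (d / (x : ℝ) ^ B) else 0 := by
        intro w
        by_cases hw : w ∈ nb G v
        · rw [if_pos hw]
          have h7 : ∀ b, |gg G d g Fb (Sum.inr (Sum.inl v)) b w| =
              if b ∈ Fb w then 1 / (2 * (d : ℝ)) else 0 := by
            intro b
            simp only [gg, hw, true_and]
            split_ifs
            · exact abs_of_pos (by positivity)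
            · exact abs_zero
          rw [sum_congr rfl fun b _ => h7 b, sum_ite_mem, univ_inter, sum_const, nsmul_eq_mul,
            mul_comm]
          exact mul_le_mul_of_nonneg_left (hFb w) (by positivity)
        · rw [if_neg hw]
          refine le_of_eq (sum_eq_zero fun b _ => ?_)
          simp only [gg, hw, false_and, if_false, abs_zero]
      refine (sum_le_sum fun w _ => h6 w).trans ?_
      rw [sum_ite_mem, univ_inter, sum_const, nsmul_eq_mul]
      have h8 := hdeg2 v
      have h9 : 0 ≤ 1 / (2 * (d : ℝ)) * (d / (x : ℝ) ^ B) := by positivity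
      calc ((nb G v).card : ℝ) * (1 / (2 * d) * (d / (x : ℝ) ^ B)) ≤
          2 * d * (1 / (2 * d) * (d / (x : ℝ) ^ B)) := mul_le_mul_of_nonneg_right h8 h9
        _ = d / (x : ℝ) ^ B := by
            field_simp
    have h10 : 1 / (d : ℝ) * ∑ b, ∑ w, |gg G d g Fb (Sum.inr (Sum.inl v)) b w| ≤
        1 / (x : ℝ) ^ B := by
      calc 1 / (d : ℝ) * ∑ b, ∑ w, |gg G d g Fb (Sum.inr (Sum.inl v)) b w| ≤
          1 / (d : ℝ) * (d / (x : ℝ) ^ B) := mul_le_mul_of_nonneg_left h5 (by positivity)
        _ = 1 / (x : ℝ) ^ B := by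
            field_simp
    rw [h4] at h3
    have h11 := i2 v
    set Y := ∑ w ∈ univ.filter (fun w => w ∉ U),
      if c w ∈ Fb w then (if w ∈ nb G v then (1 : ℝ) else 0) else 0 with hY
    have h12 : 1 / (2 * (d : ℝ)) * Y ≤ 2 * (1 / (x : ℝ) ^ B) := by linarith
    have h13 : Y ≤ 4 * d * (1 / (x : ℝ) ^ B) := by
      have h14 : Y = 2 * d * (1 / (2 * (d : ℝ)) * Y) := by
        field_simp
      rw [h14]
      calc 2 * (d : ℝ) * (1 / (2 * (d : ℝ)) * Y) ≤ 2 * d * (2 * (1 / (x : ℝ) ^ B)) :=
          mul_le_mul_of_nonneg_left h12 (by positivity)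
        _ = _ := by ring
    have h15 : 4 * (d : ℝ) / (x : ℝ) ^ B = 4 * d * (1 / (x : ℝ) ^ B) := by ring
    rw [h15] at h11
    have h16 : (d : ℝ) / (x : ℝ) ^ (C + 2 * K1 + 7) = d * (1 / (x : ℝ) ^ (C + 2 * K1 + 7)) := by
      ring
    rw [h16]
    nlinarith
  -- (ii)
  set L : V → Finset (Fin P) := fun v => univ.filter (fun b => b ∉ Fb v ∧
    ∀ w ∈ nb G v, w ∉ U' → c w ≠ b) with hLdef
  have hii : ∀ v ∈ U', (d : ℝ) / (2 * (x : ℝ) ^ (2 * K1 + 1)) ≤ ((L v).card : ℝ) := by
    intro v _
    have h1 := i3 v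
    have h2 : univ.filter (fun b => ∀ w ∈ nb G v, w ∉ U → c w ≠ b) ⊆ L v ∪ Fb v := by
      intro b hb
      rw [mem_filter] at hb
      rw [mem_union]
      by_cases hbF : b ∈ Fb v
      · exact Or.inr hbF
      · left
        simp only [hLdef, mem_filter, mem_univ, true_and]
        exact ⟨hbF, fun w hw hwU => hb.2 w hw fun h => hwU (hUU h)⟩
    have h3 : ((univ.filter (fun b => ∀ w ∈ nb G v, w ∉ U → c w ≠ b)).card : ℝ) ≤
        (L v).card + (Fb v).card := by
      exact_mod_cast (card_le_card h2).trans (card_union_le _ _)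
    have h4 := hFb v
    have h5 : (d : ℝ) / (x : ℝ) ^ B ≤ d / (2 * (x : ℝ) ^ (2 * K1 + 1)) := by
      refine div_le_div_of_nonneg_left hd0.le (by positivity) ?_
      calc 2 * (x : ℝ) ^ (2 * K1 + 1) ≤ x * (x : ℝ) ^ (2 * K1 + 1) :=
          mul_le_mul_of_nonneg_right (by linarith) (hpow _).le
        _ = (x : ℝ) ^ (2 * K1 + 2) := by ring
        _ ≤ (x : ℝ) ^ B := pow_le_pow_right₀ (by linarith) (by omega)
    have h6 : (d : ℝ) / (x : ℝ) ^ (2 * K1 + 1) = 2 * (d / (2 * (x : ℝ) ^ (2 * K1 + 1))) := by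
      field_simp
    linarith
  -- (iii)
  have hiii : ∀ j b, ∑ v ∈ U', |g j b v| ≤ 1 / (x : ℝ) ^ (C + 2 * K1 + 7) := by
    intro j b
    rw [hsplit]
    have h1 := i4 (Sum.inl j) b
    have h2 := i4 (Sum.inr (Sum.inr (j, b))) b
    have h3 : ∑ v ∈ U, |g j b v| = ∑ v ∈ U, |gg G d g Fb (Sum.inl j) b v| +
        ∑ v ∈ U, |gg G d g Fb (Sum.inr (Sum.inr (j, b))) b v| := by
      rw [← sum_add_distrib]
      refine sum_congr rfl fun v _ => ?_
      simp only [gg]
      split_ifs
      · rw [abs_zero, abs_abs, zero_add]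
      · rw [abs_zero, add_zero]
    have h4 := i6 (Sum.inr (Sum.inr (j, b)))
    have h5 : ∑ v ∈ univ.filter (fun v => v ∉ U), (if c v ∈ Fb v then |g j b v| else 0) =
        ∑ v ∈ univ.filter (fun v => v ∉ U),
          |gg G d g Fb (Sum.inr (Sum.inr (j, b))) (c v) v| := by
      refine sum_congr rfl fun v _ => ?_
      simp only [gg]
      split_ifs
      · rw [abs_abs]
      · rw [abs_zero]
    have h6 : ∑ b', ∑ v, |gg G d g Fb (Sum.inr (Sum.inr (j, b))) b' v| ≤ d / (x : ℝ) ^ B := by
      rw [sum_comm]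
      have h7 : ∀ v, ∑ b', |gg G d g Fb (Sum.inr (Sum.inr (j, b))) b' v| ≤
          |g j b v| * (d / (x : ℝ) ^ B) := by
        intro v
        have h8 : ∀ b', |gg G d g Fb (Sum.inr (Sum.inr (j, b))) b' v| =
            if b' ∈ Fb v then |g j b v| else 0 := by
          intro b'
          simp only [gg]
          split_ifs
          · rw [abs_abs]
          · rw [abs_zero]
        rw [sum_congr rfl fun b' _ => h8 b', sum_ite_mem, univ_inter, sum_const, nsmul_eq_mul,
          mul_comm]
        exact mul_le_mul_of_nonneg_left (hFb v) (abs_nonneg _)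
      refine (sum_le_sum fun v _ => h7 v).trans ?_
      rw [← sum_mul]
      have h9 := hSig.sum j b
      have h10 : 0 ≤ (d : ℝ) / (x : ℝ) ^ B := by positivity
      nlinarith
    have h10 : 1 / (d : ℝ) * ∑ b', ∑ v, |gg G d g Fb (Sum.inr (Sum.inr (j, b))) b' v| ≤
        1 / (x : ℝ) ^ B := by
      calc 1 / (d : ℝ) * ∑ b', ∑ v, |gg G d g Fb (Sum.inr (Sum.inr (j, b))) b' v| ≤
          1 / (d : ℝ) * (d / (x : ℝ) ^ B) := mul_le_mul_of_nonneg_left h6 (by positivity)
        _ = 1 / (x : ℝ) ^ B := by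
            field_simp
    rw [h5, h3]
    have h11 : (4 : ℝ) / (x : ℝ) ^ B = 4 * (1 / (x : ℝ) ^ B) := by ring
    rw [h11] at h1 h2
    have h12 : (0 : ℝ) ≤ 1 / (x : ℝ) ^ B := by positivity
    linarith
  -- sublists
  obtain ⟨s, s1, s2, s3, s4⟩ := hS G d x P J R S g Q U' L hx2 hlog hxN2 hP hP0 hdeg2' hi hii
    hSig.sup hSig.le hSig.card hSig.mul hiii hUpt
  obtain ⟨f, hf⟩ := hL G P (32 * x ^ (C + 3)) (x ^ (C + 3)) U' s
    (Nat.mul_pos (by norm_num) (Nat.pow_pos (by omega))) le_rfl s2
  set c' : V → Fin P := fun v => if v ∈ U' then s v (f v) else c v with hc'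
  have hcU : ∀ v, v ∈ U' → c' v = s v (f v) := fun v hv => if_pos hv
  have hcN : ∀ v, v ∉ U' → c' v = c v := fun v hv => if_neg hv
  have hsL : ∀ v ∈ U', c' v ∉ Fb v ∧ ∀ w ∈ nb G v, w ∉ U' → c w ≠ c' v := by
    intro v hv
    rw [hcU v hv]
    have := s1 v hv (f v)
    simp only [hLdef, mem_filter, mem_univ, true_and] at this
    exact this
  -- the sum over U'
  have hU4 : ∀ j, ∑ v ∈ U', |g j (c' v) v| ≤ 1 / (4 * x) := by
    intro j
    refine le_trans (sum_le_sum fun v hv => ?_) (s3 j)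
    rw [hcU v hv]
    exact single_le_sum (f := fun i => |g j (s v i) v|) (fun i _ => abs_nonneg _)
      (mem_univ (f v))
  have hxx : (1 : ℝ) / (4 * x) = 1 / x / 4 := by
    field_simp
  have h1x : (0 : ℝ) < 1 / x := by positivity
  refine ⟨c', ?_, ?_, ?_, ?_, ?_⟩
  · intro v w hvw
    by_cases hv : v ∈ U'
    · by_cases hw : w ∈ U'
      · rw [hcU v hv, hcU w hw]
        exact hf v hv w hw hvw
      · rw [hcN w hw]
        exact ((hsL v hv).2 w (by simpa [nb] using hvw) hw).symm
    · by_cases hw : w ∈ U'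
      · rw [hcN v hv]
        exact (hsL w hw).2 v (by simpa [nb] using hvw.symm) hv
      · rw [hcN v hv, hcN w hw]
        exact i1 v w ((hU'mem v).1 hv).1 ((hU'mem w).1 hw).1 hvw
  · intro v
    by_cases hv : v ∈ U'
    · exact (hsL v hv).1
    · rw [hcN v hv]
      exact ((hU'mem v).1 hv).2
  · intro j
    have h1 := i5 (Sum.inl j)
    have h2 : ∀ b, |∑ v ∈ univ.filter (fun v => c' v = b), g j b v| ≤
        |∑ v ∈ univ.filter (fun v => v ∉ U ∧ c v = b), gg G d g Fb (Sum.inl j) b v| +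
          ∑ v ∈ U', if c' v = b then |g j b v| else 0 := by
      intro b
      have h3 : ∑ v ∈ univ.filter (fun v => c' v = b), g j b v =
          ∑ v ∈ univ.filter (fun v => v ∉ U ∧ c v = b), gg G d g Fb (Sum.inl j) b v +
            ∑ v ∈ U', if c' v = b then g j b v else 0 := by
        rw [sum_filter, sum_filter]
        have h4 : ∑ v ∈ U', (if c' v = b then g j b v else 0) =
            ∑ v, if v ∈ U' then (if c' v = b then g j b v else 0) else 0 := by
          rw [sum_ite_mem, univ_inter]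
        rw [h4, ← sum_add_distrib]
        refine sum_congr rfl fun v _ => ?_
        by_cases hv : v ∈ U'
        · simp only [hv, if_true]
          have h5 : (if v ∉ U ∧ c v = b then gg G d g Fb (Sum.inl j) b v else 0) = 0 := by
            by_cases h6 : v ∉ U ∧ c v = b
            · rw [if_pos h6]
              have h7 : c v ∈ Fb v := by
                by_contra h8
                exact (hU'mem v).2 ⟨h6.1, h8⟩ hv
              rw [h6.2] at h7
              simp only [gg, if_pos h7]
            · rw [if_neg h6]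
          rw [h5, zero_add]
        · have hv' := (hU'mem v).1 hv
          simp only [hv, if_false, add_zero, hcN v hv]
          by_cases h6 : c v = b
          · have h7 : b ∉ Fb v := h6 ▸ hv'.2
            rw [if_pos h6, if_pos ⟨hv'.1, h6⟩]
            simp only [gg, if_neg h7]
          · rw [if_neg h6, if_neg fun h => h6 h.2]
      rw [h3]
      refine (abs_add_le _ _).trans (add_le_add le_rfl ?_)
      refine (abs_sum_le_sum_abs _ _).trans (sum_le_sum fun v _ => ?_)
      split_ifs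
      · exact le_rfl
      · rw [abs_zero]
    have h3 : ∑ b, ∑ v ∈ U', (if c' v = b then |g j b v| else 0) = ∑ v ∈ U', |g j (c' v) v| := by
      rw [sum_comm]
      refine sum_congr rfl fun v _ => ?_
      rw [Finset.sum_ite_eq, if_pos (mem_univ _)]
    have h4 : ∀ b, |∑ v, gg G d g Fb (Sum.inl j) b v| ≤ |∑ v, g j b v| +
        ∑ v ∈ univ.filter (fun v => b ∈ Fb v), |g j b v| := by
      intro b
      have h5 : ∑ v, gg G d g Fb (Sum.inl j) b v = ∑ v, g j b v -
          ∑ v ∈ univ.filter (fun v => b ∈ Fb v), g j b v := by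
        rw [sum_filter, ← sum_sub_distrib]
        refine sum_congr rfl fun v _ => ?_
        simp only [gg]
        split_ifs
        · rw [sub_self]
        · rw [sub_zero]
      rw [h5]
      refine (abs_sub _ _).trans (add_le_add le_rfl (abs_sum_le_sum_abs _ _))
    have h5 : 1 / (d : ℝ) * ∑ b, |∑ v, gg G d g Fb (Sum.inl j) b v| ≤
        1 / (d : ℝ) * ∑ b, (|∑ v, g j b v| +
          ∑ v ∈ univ.filter (fun v => b ∈ Fb v), |g j b v|) :=
      mul_le_mul_of_nonneg_left (sum_le_sum fun b _ => h4 b) (by positivity)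
    have h6 : ∑ b, |∑ v ∈ univ.filter (fun v => c' v = b), g j b v| ≤
        ∑ b, |∑ v ∈ univ.filter (fun v => v ∉ U ∧ c v = b), gg G d g Fb (Sum.inl j) b v| +
          ∑ v ∈ U', |g j (c' v) v| := by
      rw [← h3, ← sum_add_distrib]
      exact sum_le_sum fun b _ => h2 b
    have h7 := hU4 j
    simp only [eg] at h1
    linarith
  · intro j
    have h1 := i6 (Sum.inl j)
    have h2 : ∑ v, |g j (c' v) v| = ∑ v ∈ univ.filter (fun v => v ∉ U'), |g j (c v) v| +
        ∑ v ∈ U', |g j (c' v) v| := by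
      have h3 := sum_filter_add_sum_filter_not univ (fun v => v ∈ U') (fun v => |g j (c' v) v|)
      rw [← h3, add_comm]
      congr 1
      · refine sum_congr rfl fun v hv => ?_
        rw [hcN v (mem_filter.1 hv).2]
      · refine sum_congr ?_ fun _ _ => rfl
        ext v
        simp
    have h3 : ∑ v ∈ univ.filter (fun v => v ∉ U'), |g j (c v) v| ≤
        ∑ v ∈ univ.filter (fun v => v ∉ U), |gg G d g Fb (Sum.inl j) (c v) v| := by
      have h4 : ∀ v ∈ univ.filter (fun v => v ∉ U'), |g j (c v) v| =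
          |gg G d g Fb (Sum.inl j) (c v) v| := by
        intro v hv
        have hv' := (hU'mem v).1 (mem_filter.1 hv).2
        simp only [gg, if_neg hv'.2]
      rw [sum_congr rfl h4]
      refine sum_le_sum_of_subset_of_nonneg ?_ fun v _ _ => abs_nonneg _
      intro v hv
      exact mem_filter.2 ⟨mem_univ _, ((hU'mem v).1 (mem_filter.1 hv).2).1⟩
    have h4 : ∑ b, ∑ v, |gg G d g Fb (Sum.inl j) b v| ≤ ∑ b, ∑ v, |g j b v| := by
      refine sum_le_sum fun b _ => sum_le_sum fun v _ => ?_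
      simp only [gg]
      split_ifs
      · rw [abs_zero]
        exact abs_nonneg _
      · exact le_rfl
    have h5 : 1 / (d : ℝ) * ∑ b, ∑ v, |gg G d g Fb (Sum.inl j) b v| ≤
        1 / (d : ℝ) * ∑ b, ∑ v, |g j b v| := mul_le_mul_of_nonneg_left h4 (by positivity)
    have h7 := hU4 j
    rw [h2]
    linarith
  · intro q
    have h1 := i7 q
    have h2 := s4 q
    have h3 : (Q q).filter (fun y => c' y.2 = y.1) ⊆
        (Q q).filter (fun y => y.2 ∉ U ∧ c y.2 = y.1) ∪
        (((U' ×ˢ (univ : Finset (Fin (32 * x ^ (C + 3))))).filter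
          (fun y => (s y.1 y.2, y.1) ∈ Q q)).image (fun y => (s y.1 y.2, y.1))) := by
      rintro ⟨b, v⟩ hy
      rw [mem_filter] at hy
      obtain ⟨hy1, hy2⟩ := hy
      simp only at hy2
      rw [mem_union]
      by_cases hv : v ∈ U'
      · right
        rw [hcU v hv] at hy2
        rw [mem_image]
        refine ⟨(v, f v), ?_, ?_⟩
        · rw [mem_filter, mem_product]
          refine ⟨⟨hv, mem_univ _⟩, ?_⟩
          simp only [hy2]
          exact hy1
        · simp only [hy2]
      · left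
        rw [hcN v hv] at hy2
        exact mem_filter.2 ⟨hy1, ((hU'mem v).1 hv).1, hy2⟩
    have h4 : (((Q q).filter (fun y => c' y.2 = y.1)).card : ℝ) ≤
        (((Q q).filter (fun y => y.2 ∉ U ∧ c y.2 = y.1)).card : ℝ) +
        (((U' ×ˢ (univ : Finset (Fin (32 * x ^ (C + 3))))).filter
          (fun y => (s y.1 y.2, y.1) ∈ Q q)).card : ℝ) := by
      exact_mod_cast (card_le_card h3).trans ((card_union_le _ _).trans
        (Nat.add_le_add_left card_image_le _))
    have h5 : (x : ℝ) ^ C1 ≤ (x : ℝ) ^ (C1 + C2) := pow_le_pow_right₀ (by linarith) (by omega)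
    have h6 : (x : ℝ) ^ C2 ≤ (x : ℝ) ^ (C1 + C2) := pow_le_pow_right₀ (by linarith) (by omega)
    have h7 : (x : ℝ) ^ (C1 + C2 + 1) = (x : ℝ) ^ (C1 + C2) * x := by ring
    rw [h7]
    nlinarith [hpow (C1 + C2)]

end Pool.Agent.Work.MP_db9399_ow.helper79
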