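import Pool.Agent.Work.MP_db9399_ow_helper79.MLT

/-!
# MP_db9399, block SGN of OWN: signed tests (helper79)
-/

set_option autoImplicit false

namespace Pool.Agent.Work.MP_db9399_ow.helper79

open Finset Classical
open Pool.Agent.Work.MP_db9399_all (nb mis pr DepOnI)
open Pool.Agent.Work.MP_db9399_en

universe u v

theorem ex_sq {J : Type u} [Fintype J] {M : ℕ} (hM : 0 < M) (f : (J → Fin M) → ℝ) :
    ex f ≤ Real.sqrt (ex (fun ω => f ω ^ 2)) := by
  refine Real.le_sqrt_of_sq_le ?_
  have hc := card_pos (J := J) hM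
  have h1 := sq_sum_le_card_mul_sum_sq (s := (univ : Finset (J → Fin M))) (f := f)
  rw [card_univ] at h1
  simp only [ex]
  rw [div_pow, div_le_div_iff₀ (by positivity) hc]
  nlinarith

theorem ex_off {V : Type u} [Fintype V] {P M T : ℕ} (hM : 0 < M) (hT : T ≤ M) (U : Finset V)
    (b : Fin P) (v : V) :
    ex (fun ω : Fin P × V → Fin M => if v ∈ off U T ω b then (1 : ℝ) else 0) ≤ (T : ℝ) / M := by
  have h0 : ∀ ω : Fin P × V → Fin M, (if v ∈ off U T ω b then (1 : ℝ) else 0) ≤
      if ∀ y ∈ ({(b, v)} : Finset (Fin P × V)),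
          ω y ∈ (univ.filter (fun s : Fin M => (s : ℕ) < T)) then (1 : ℝ) else 0 := by
    intro ω
    by_cases h : v ∈ off U T ω b
    · rw [if_pos h, if_pos]
      have := (mem_filter.1 h).2
      simpa using this
    · rw [if_neg h]
      split_ifs
      · exact zero_le_one
      · exact le_rfl
  refine (ex_mono hM h0).trans (le_of_eq ?_)
  refine (ex_box' hM ({(b, v)} : Finset (Fin P × V))
      (fun _ => univ.filter (fun s : Fin M => (s : ℕ) < T)) _).trans ?_
  rw [prod_singleton, card_lt' hT]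

/-- **SGN** -/
theorem stmt_SGN (hO : Stmt_OFFX.{u}) (hL : Stmt_LOCP.{u}) (hV : Stmt_VAR.{u}) :
    Stmt_SGN.{u} := by
  intro V _ P D N1 G U B g K ξ Λ ε e hD hN1 hND hK hΛ hε hε1 hdeg hdeg2 hgK hg1 hge he hBe hξ h8
    h64
  have hN0 : 0 < N1 := hN1
  have hD0' : 0 < D := by omega
  have hM : 0 < D * N1 := Nat.mul_pos hD0' hN0
  have hD0 : (0 : ℝ) < D := by exact_mod_cast hD0'
  have hN0' : (0 : ℝ) < N1 := by exact_mod_cast hN0
  set T : ℕ := N1 ^ 2 with hT
  have hTM : T ≤ D * N1 := by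
    rw [hT, pow_two]
    exact Nat.mul_le_mul_right _ hND.le
  set q : ℝ := (N1 : ℝ) / D with hq
  have hq0 : 0 < q := by positivity
  have hTq : (T : ℝ) / ((D * N1 : ℕ) : ℝ) = q := by
    rw [hT, hq]
    push_cast
    field_simp
  have hTq' : (T : ℝ) = q * ((D * N1 : ℕ) : ℝ) := by
    rw [hT, hq]
    push_cast
    field_simp
  have hξq : 2 * q ≤ ξ := by
    rw [hq]
    calc 2 * ((N1 : ℝ) / D) = 2 * (N1 : ℝ) / D := by ring
      _ ≤ ξ := hξ
  have hξ0 : 0 < ξ := by linarith
  set r : ℝ := Real.sqrt (2100 * e / D) with hr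
  have hr0 : 0 ≤ r := Real.sqrt_nonneg _
  set X : Fin P → (Fin P × V → Fin (D * N1)) → ℝ := fun b ω => ∑ v ∈ off U T ω b, |g b v| with hX
  set μ : Fin P → ℝ := fun b => ∑ v ∈ U, Pv G U (D * N1) T v * g b v with hμ
  set H : Fin P → (Fin P × V → Fin (D * N1)) → ℝ := fun b ω =>
    |∑ v ∈ loc G U T ω b, g b v - μ b| with hH
  set Z : Fin P → (Fin P × V → Fin (D * N1)) → ℝ := fun b ω => if X b ω < ξ then H b ω else 0
    with hZ
  have hH0 : ∀ b ω, 0 ≤ H b ω := fun b ω => abs_nonneg _
  have hZ0 : ∀ b ω, 0 ≤ Z b ω := fun b ω => by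
    simp only [hZ]
    split_ifs
    · exact hH0 b ω
    · exact le_rfl
  have hZH : ∀ b ω, Z b ω ≤ H b ω := fun b ω => by
    simp only [hZ]
    split_ifs
    · exact le_rfl
    · exact hH0 b ω
  -- probabilities
  have hPq : ∀ (_b : Fin P) (v : V), v ∈ U → 0 ≤ Pv G U (D * N1) T v ∧
      Pv G U (D * N1) T v ≤ q := by
    intro b v hv
    have h1 := hL P (D * N1) T G U b v hM hTM hv
    rw [← h1]
    refine ⟨ex_nonneg fun ω => by split_ifs <;> norm_num, ?_⟩
    have h2 : ∀ ω : Fin P × V → Fin (D * N1), (if v ∈ loc G U T ω b then (1 : ℝ) else 0) ≤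
        if v ∈ off U T ω b then (1 : ℝ) else 0 := by
      intro ω
      by_cases h : v ∈ loc G U T ω b
      · have h' : v ∈ off U T ω b := by
          simp only [loc, off, mem_filter] at h ⊢
          exact ⟨h.1, h.2.1⟩
        rw [if_pos h, if_pos h']
      · rw [if_neg h]
        split_ifs
        · exact zero_le_one
        · exact le_rfl
    refine (ex_mono hM h2).trans ?_
    have := ex_off hM hTM U b v
    rwa [hTq] at this
  have hμq : ∀ b, |μ b| ≤ q := by
    intro b
    have h1 : |μ b| ≤ ∑ v ∈ U, q * |g b v| := by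
      refine (abs_sum_le_sum_abs _ _).trans (sum_le_sum fun v hv => ?_)
      rw [abs_mul, abs_of_nonneg (hPq b v hv).1]
      exact mul_le_mul_of_nonneg_right (hPq b v hv).2 (abs_nonneg _)
    rw [← mul_sum] at h1
    have h2 : ∑ v ∈ U, |g b v| ≤ 1 :=
      (sum_le_sum_of_subset_of_nonneg (subset_univ U) fun v _ _ => abs_nonneg _).trans (hg1 b)
    nlinarith
  have hZξ : ∀ b ω, Z b ω ≤ 2 * ξ := by
    intro b ω
    by_cases hc : X b ω < ξ
    · simp only [hZ, if_pos hc, hH]
      have h1 : |∑ v ∈ loc G U T ω b, g b v| ≤ X b ω := by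
        refine (abs_sum_le_sum_abs _ _).trans ?_
        refine sum_le_sum_of_subset_of_nonneg ?_ fun v _ _ => abs_nonneg _
        intro v hv
        simp only [loc, off, mem_filter] at hv ⊢
        exact ⟨hv.1, hv.2.1⟩
      have h2 := abs_sub (∑ v ∈ loc G U T ω b, g b v) (μ b)
      have h3 := hμq b
      linarith
    · simp only [hZ, if_neg hc]
      positivity
  -- the scope
  have hdep : ∀ b ∈ B, DepOnI (({b} : Finset (Fin P)) ×ˢ (univ : Finset V)) (Z b) := by
    intro b _ ω ω' hω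
    have e0 : ∀ v, ω (b, v) = ω' (b, v) := fun v => hω (b, v) (by simp)
    have e1 : off U T ω b = off U T ω' b := by
      simp only [off, e0]
    have e2 : loc G U T ω b = loc G U T ω' b := by
      simp only [loc, e0]
    simp only [hZ, hX, hH, e1, e2]
  have hdis : ∀ b ∈ B, ∀ b' ∈ B, b ≠ b' →
      Disjoint (({b} : Finset (Fin P)) ×ˢ (univ : Finset V)) (({b'} : Finset (Fin P)) ×ˢ univ) := by
    intro b _ b' _ hne
    rw [Finset.disjoint_left]
    rintro ⟨b1, x⟩ hx hx'
    simp only [mem_product, mem_univ, and_true, mem_singleton] at hx hx'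
    exact hne (hx.symm.trans hx')
  -- the mean
  have hmean : ∀ b, ex (Z b) ≤ r := by
    intro b
    refine (ex_mono hM (hZH b)).trans ((ex_sq hM _).trans ?_)
    refine Real.sqrt_le_sqrt ?_
    have h1 := hV P D N1 G U b (g b) hD hN1 hND hdeg hdeg2
    have h2 : (fun ω : Fin P × V → Fin (D * N1) => H b ω ^ 2) = fun ω =>
        (∑ v ∈ loc G U (N1 ^ 2) ω b, g b v -
          ∑ v ∈ U, Pv G U (D * N1) (N1 ^ 2) v * g b v) ^ 2 := by
      funext ω
      simp only [hH, sq_abs, hμ, hT]
    rw [h2]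
    refine h1.trans ?_
    have h3 := hge b
    have h4 : 2100 / (D : ℝ) * ∑ v ∈ U, g b v ^ 2 ≤ 2100 / (D : ℝ) * e :=
      mul_le_mul_of_nonneg_left h3 (by positivity)
    refine h4.trans (le_of_eq (by ring))
  set m : ℝ := B.card * r + ε / 2 with hm
  have hBr : (0 : ℝ) ≤ B.card * r := by positivity
  have hm0 : 0 < m := by
    rw [hm]
    linarith
  have hm1 : m ≤ 3 / 2 := by
    rw [hm]
    linarith
  have hmsum : ∑ b ∈ B, ex (Z b) ≤ m := by
    have := sum_le_sum fun b (_ : b ∈ B) => hmean b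
    rw [sum_const, nsmul_eq_mul] at this
    rw [hm]
    linarith
  have hch := chern_up hM B (fun b => ({b} : Finset (Fin P)) ×ˢ (univ : Finset V)) Z
    (B := 2 * ξ) (m := m) (s := ε / 2) hdep hdis (fun b _ ω => hZ0 b ω) (fun b _ ω => hZξ b ω)
    (by positivity) hm0 hmsum (by linarith)
  have hmin : Λ ≤ min ((ε / 2) ^ 2 / (4 * (2 * ξ) * m)) ((ε / 2) / (2 * (2 * ξ))) := by
    refine le_min ?_ ?_
    · rw [le_div_iff₀ (by positivity)]
      have h1 : 0 ≤ Λ * ξ := mul_nonneg hΛ hξ0.le
      nlinarith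
    · rw [le_div_iff₀ (by positivity)]
      nlinarith [mul_nonneg hΛ hξ0.le]
  have hch' : pr (fun ω : Fin P × V → Fin (D * N1) => m + ε / 2 ≤ ∑ b ∈ B, Z b ω) ≤
      Real.exp (-Λ) := (le_of_eq (pr_inst _ _ _)).trans
        (hch.trans (Real.exp_le_exp.2 (neg_le_neg hmin)))
  -- many offers
  have hoff : ∀ b ∈ B, pr (fun ω : Fin P × V → Fin (D * N1) => ξ ≤ X b ω) ≤
      Real.exp (-Λ) := by
    intro b _
    have hsum : ∀ F : V → ℝ, ∑ y : Fin P × V, (if y.1 = b then F y.2 else 0) = ∑ v, F v := by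
      intro F
      rw [Fintype.sum_prod_type]
      rw [Finset.sum_eq_single b]
      · simp
      · intro b' _ hb'
        exact sum_eq_zero fun v _ => if_neg hb'
      · simp
    have h1 := hO P (D * N1) T U (fun y => if y.1 = b then |g b y.2| else 0) q K
      1 ξ Λ hM hTq'.le hq0 hK one_pos hΛ
      (fun y => by
        split_ifs
        · exact abs_nonneg _
        · exact le_rfl)
      (fun y => by
        split_ifs
        · exact hgK b y.2
        · exact hK.le)
      (by
        have := hsum (fun v => |g b v|)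
        rw [this]
        exact hg1 b)
      (by linarith) h8
    refine le_trans (le_of_eq ?_) h1
    have h3 : ∀ ω : Fin P × V → Fin (D * N1), X b ω =
        ∑ y ∈ univ.filter (fun y : Fin P × V => y.2 ∈ off U T ω y.1),
          if y.1 = b then |g b y.2| else 0 := by
      intro ω
      rw [sum_filter]
      have h4 : ∀ y : Fin P × V, (if y.2 ∈ off U T ω y.1 then
          (if y.1 = b then |g b y.2| else 0) else 0) =
          if y.1 = b then (if y.2 ∈ off U T ω b then |g b y.2| else 0) else 0 := by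
        intro y
        by_cases hb : y.1 = b
        · simp only [hb, if_true]
        · simp only [hb, if_false, ite_self]
      rw [sum_congr rfl fun y _ => h4 y,
        hsum (fun v => if v ∈ off U T ω b then |g b v| else 0)]
      simp only [hX]
      rw [Finset.sum_ite_mem, univ_inter]
    simp only [h3]
  -- union bound
  have hfin : ∀ ω : Fin P × V → Fin (D * N1), B.card * r + ε ≤ ∑ b ∈ B, H b ω →
      m + ε / 2 ≤ ∑ b ∈ B, Z b ω ∨ ∃ b ∈ B, ξ ≤ X b ω := by
    intro ω hω
    by_cases hex : ∃ b ∈ B, ξ ≤ X b ω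
    · exact Or.inr hex
    · left
      push Not at hex
      have h1 : ∑ b ∈ B, H b ω = ∑ b ∈ B, Z b ω :=
        sum_congr rfl fun b hb => by simp only [hZ, if_pos (hex b hb)]
      rw [h1] at hω
      rw [hm]
      linarith
  refine (pr_union B _ _ (fun b ω => ξ ≤ X b ω) hfin).trans ?_
  have h6 := sum_le_sum hoff
  rw [sum_const, nsmul_eq_mul] at h6
  linarith

end Pool.Agent.Work.MP_db9399_ow.helper79
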