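import Pool.Agent.Work.MP_db9399_ow_helper79.LOC2

/-!
# MP_db9399, block MLT of OWN: vertices with two offers (helper79)
-/

set_option autoImplicit false

namespace Pool.Agent.Work.MP_db9399_ow.helper79

open Finset Classical
open Pool.Agent.Work.MP_db9399_all (nb mis pr DepOnI)
open Pool.Agent.Work.MP_db9399_en

universe u v

/-- union bound -/
theorem pr_union {Ω : Type u} [Fintype Ω] {ι : Type v} (S : Finset ι) (E E1 : Ω → Prop)
    (E2 : ι → Ω → Prop) (h : ∀ ω, E ω → E1 ω ∨ ∃ i ∈ S, E2 i ω) :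
    pr E ≤ pr E1 + ∑ i ∈ S, pr (E2 i) := by
  simp only [pr]
  rw [← Finset.sum_div, ← add_div]
  refine div_le_div_of_nonneg_right ?_ (Nat.cast_nonneg _)
  have h1 : univ.filter E ⊆ univ.filter E1 ∪ S.biUnion (fun i => univ.filter (E2 i)) := by
    intro ω hω
    rw [mem_filter] at hω
    rcases h ω hω.2 with h' | ⟨i, hi, h'⟩
    · exact mem_union_left _ (mem_filter.2 ⟨mem_univ _, h'⟩)
    · exact mem_union_right _ (mem_biUnion.2 ⟨i, hi, mem_filter.2 ⟨mem_univ _, h'⟩⟩)
  have h2 := (card_le_card h1).trans ((card_union_le _ _).trans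
    (Nat.add_le_add_left card_biUnion_le _))
  exact_mod_cast h2

theorem pr_inst {Ω : Type u} (i1 i2 : Fintype Ω) (E : Ω → Prop) : @pr Ω i1 E = @pr Ω i2 E := by
  rw [Subsingleton.elim i1 i2]

theorem card_lt' {M T : ℕ} (hT : T ≤ M) :
    (univ.filter (fun s : Fin M => (s : ℕ) < T)).card = T := by
  have h1 : (univ.filter (fun s : Fin M => (s : ℕ) < T)).map Fin.valEmbedding = range T := by
    ext s
    simp only [mem_map, mem_filter, mem_univ, true_and, Fin.valEmbedding_apply, mem_range]
    constructor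
    · rintro ⟨a, ha, rfl⟩
      exact ha
    · intro h
      exact ⟨⟨s, h.trans_le hT⟩, h, rfl⟩
  rw [← card_map Fin.valEmbedding, h1, card_range]

theorem ex_two {V : Type u} [Fintype V] {P M T : ℕ} (hM : 0 < M) (hT : T ≤ M) (U : Finset V)
    (b b' : Fin P) (hb : b ≠ b') (v : V) :
    ex (fun ω : Fin P × V → Fin M => if v ∈ off U T ω b ∧ v ∈ off U T ω b' then (1 : ℝ) else 0) ≤
      ((T : ℝ) / M) ^ 2 := by
  by_cases hv : v ∈ U
  · have h1 : (fun ω : Fin P × V → Fin M =>
        if v ∈ off U T ω b ∧ v ∈ off U T ω b' then (1 : ℝ) else 0) =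
        fun ω => if ∀ y ∈ ({(b, v), (b', v)} : Finset (Fin P × V)),
          ω y ∈ (univ.filter (fun s : Fin M => (s : ℕ) < T)) then (1 : ℝ) else 0 := by
      funext ω
      have : (v ∈ off U T ω b ∧ v ∈ off U T ω b') ↔
          ∀ y ∈ ({(b, v), (b', v)} : Finset (Fin P × V)),
            ω y ∈ (univ.filter (fun s : Fin M => (s : ℕ) < T)) := by
        simp [off, hv]
      by_cases h : v ∈ off U T ω b ∧ v ∈ off U T ω b'
      · rw [if_pos h, if_pos (this.1 h)]
      · rw [if_neg h, if_neg (fun h' => h (this.2 h'))]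
    rw [h1]
    refine le_of_eq ((ex_box' hM ({(b, v), (b', v)} : Finset (Fin P × V))
      (fun _ => univ.filter (fun s : Fin M => (s : ℕ) < T)) _).trans ?_)
    have hne : ((b, v) : Fin P × V) ≠ (b', v) := fun h => hb (Prod.mk.inj h).1
    rw [prod_pair hne, card_lt' hT]
    ring
  · have h1 : (fun ω : Fin P × V → Fin M =>
        if v ∈ off U T ω b ∧ v ∈ off U T ω b' then (1 : ℝ) else 0) = fun _ => 0 := by
      funext ω
      exact if_neg fun h => hv (mem_filter.1 h.1).1
    rw [h1]
    simp only [ex, sum_const_zero, zero_div]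
    positivity

/-- **MLT** -/
theorem stmt_MLT (hO : Stmt_OFFX.{u}) : Stmt_MLT.{u} := by
  intro V _ P D N1 U S B F K Λ ν hN1 hND hK hΛ hν hF0 hFK hF1 hFS hB h2 h8 h4
  have hN0 : 0 < N1 := hN1
  have hD0' : 0 < D := by omega
  have hM : 0 < D * N1 := Nat.mul_pos hD0' hN0
  have hD0 : (0 : ℝ) < D := by exact_mod_cast hD0'
  have hN0' : (0 : ℝ) < N1 := by exact_mod_cast hN0
  set T : ℕ := N1 ^ 2 with hT
  have hTM : T ≤ D * N1 := by
    rw [hT, pow_two]
    exact Nat.mul_le_mul_right _ hND.le
  set q : ℝ := (N1 : ℝ) / D with hq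
  have hq0 : 0 < q := by positivity
  have hTq : (T : ℝ) / ((D * N1 : ℕ) : ℝ) = q := by
    rw [hT, hq]
    push_cast
    field_simp
  have hTq' : (T : ℝ) = q * ((D * N1 : ℕ) : ℝ) := by
    rw [hT, hq]
    push_cast
    field_simp
  have hBr : (0 : ℝ) < B.card := by exact_mod_cast hB
  have hBq : B.card * (N1 : ℝ) / D = B.card * q := by
    rw [hq]
    ring
  rw [hBq] at h2 h4
  simp only [hBq]
  set m : ℝ := (B.card * q) ^ 2 with hm
  have hm0 : 0 < m := by positivity
  set Y : V → (Fin P × V → Fin (D * N1)) → ℝ := fun v ω =>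
    ∑ b ∈ B, if v ∈ off U T ω b ∧ 2 ≤ num U T B ω v then F b v else 0 with hY
  set Z : V → (Fin P × V → Fin (D * N1)) → ℝ := fun v ω =>
    if (num U T B ω v : ℝ) < ν then Y v ω else 0 with hZ
  have hY0 : ∀ v ω, 0 ≤ Y v ω := fun v ω => sum_nonneg fun b _ => by
    split_ifs
    · exact hF0 b v
    · exact le_rfl
  have hZ0 : ∀ v ω, 0 ≤ Z v ω := fun v ω => by
    simp only [hZ]
    split_ifs
    · exact hY0 v ω
    · exact le_rfl
  have hZY : ∀ v ω, Z v ω ≤ Y v ω := fun v ω => by
    simp only [hZ]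
    split_ifs
    · exact le_rfl
    · exact hY0 v ω
  have hZK : ∀ v ω, Z v ω ≤ K * ν := by
    intro v ω
    by_cases hc : (num U T B ω v : ℝ) < ν
    · simp only [hZ, if_pos hc]
      have h1 : Y v ω ≤ ∑ b ∈ B, if v ∈ off U T ω b then K else 0 := by
        refine sum_le_sum fun b _ => ?_
        by_cases h : v ∈ off U T ω b
        · rw [if_pos h]
          split_ifs
          · exact hFK b v
          · exact hK.le
        · rw [if_neg h, if_neg (fun h' => h h'.1)]
      have h2' : (∑ b ∈ B, if v ∈ off U T ω b then K else 0) = K * num U T B ω v := by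
        rw [← sum_filter, sum_const, nsmul_eq_mul, num, mul_comm]
      rw [h2'] at h1
      exact h1.trans (mul_le_mul_of_nonneg_left hc.le hK.le)
    · simp only [hZ, if_neg hc]
      positivity
  -- the scope
  have hdep : ∀ v ∈ S, DepOnI ((univ : Finset (Fin P)) ×ˢ {v}) (Z v) := by
    intro v _ ω ω' hω
    have e1 : ∀ b, (v ∈ off U T ω b) = (v ∈ off U T ω' b) := by
      intro b
      have := hω (b, v) (by simp)
      simp only [off, mem_filter, this]
    have e2 : num U T B ω v = num U T B ω' v := by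
      simp only [num, e1]
    simp only [hZ, hY, e1, e2]
  have hdis : ∀ v ∈ S, ∀ v' ∈ S, v ≠ v' →
      Disjoint ((univ : Finset (Fin P)) ×ˢ {v}) ((univ : Finset (Fin P)) ×ˢ {v'}) := by
    intro v _ v' _ hne
    rw [Finset.disjoint_left]
    rintro ⟨b, x⟩ hx hx'
    simp only [mem_product, mem_univ, true_and, mem_singleton] at hx hx'
    exact hne (hx.symm.trans hx')
  -- the mean
  have hmean : ∀ v, ex (Z v) ≤ ∑ b ∈ B, F b v * (B.card * q ^ 2) := by
    intro v
    refine (ex_mono hM (hZY v)).trans ?_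
    have h1 : ex (Y v) = ∑ b ∈ B, ex (fun ω : Fin P × V → Fin (D * N1) =>
        if v ∈ off U T ω b ∧ 2 ≤ num U T B ω v then F b v else 0) := by
      simp only [hY]
      rw [ex_sum]
    rw [h1]
    refine sum_le_sum fun b hb => ?_
    have h3 : ∀ ω : Fin P × V → Fin (D * N1),
        (if v ∈ off U T ω b ∧ 2 ≤ num U T B ω v then F b v else 0) ≤
        F b v * ∑ b' ∈ B.erase b,
          (if v ∈ off U T ω b ∧ v ∈ off U T ω b' then (1 : ℝ) else 0) := by
      intro ω
      by_cases h : v ∈ off U T ω b ∧ 2 ≤ num U T B ω v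
      · rw [if_pos h]
        obtain ⟨b', hb', hbb⟩ : ∃ b' ∈ B.filter (fun b => v ∈ off U T ω b), b' ≠ b := by
          refine exists_mem_ne ?_ b
          exact h.2
        rw [mem_filter] at hb'
        have h4 : (1 : ℝ) ≤ ∑ b' ∈ B.erase b,
            (if v ∈ off U T ω b ∧ v ∈ off U T ω b' then (1 : ℝ) else 0) := by
          have := single_le_sum (f := fun b' =>
            (if v ∈ off U T ω b ∧ v ∈ off U T ω b' then (1 : ℝ) else 0))
            (s := B.erase b) (fun b' _ => by
              split_ifs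
              · exact zero_le_one
              · exact le_rfl) (mem_erase.2 ⟨hbb, hb'.1⟩)
          simp only [if_pos (show v ∈ off U T ω b ∧ v ∈ off U T ω b' from ⟨h.1, hb'.2⟩)] at this
          exact this
        nlinarith [hF0 b v]
      · rw [if_neg h]
        refine mul_nonneg (hF0 b v) (sum_nonneg fun b' _ => ?_)
        split_ifs
        · exact zero_le_one
        · exact le_rfl
    refine (ex_mono hM h3).trans ?_
    rw [ex_const_mul]
    refine mul_le_mul_of_nonneg_left ?_ (hF0 b v)
    rw [ex_sum]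
    have h5 : ∑ b' ∈ B.erase b, ex (fun ω : Fin P × V → Fin (D * N1) =>
        (if v ∈ off U T ω b ∧ v ∈ off U T ω b' then (1 : ℝ) else 0)) ≤
        ∑ _b' ∈ B.erase b, q ^ 2 := by
      refine sum_le_sum fun b' hb' => ?_
      have := ex_two hM hTM U b b' (mem_erase.1 hb').1.symm v
      rw [hTq] at this
      exact this
    refine h5.trans ?_
    rw [sum_const, nsmul_eq_mul]
    refine mul_le_mul_of_nonneg_right ?_ (by positivity)
    exact_mod_cast card_le_card (erase_subset b B)
  have hmsum : ∑ v ∈ S, ex (Z v) ≤ m := by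
    refine (sum_le_sum fun v _ => hmean v).trans ?_
    rw [sum_comm]
    have h1 : ∀ b ∈ B, ∑ v ∈ S, F b v * (B.card * q ^ 2) ≤ B.card * q ^ 2 := by
      intro b _
      rw [← sum_mul]
      have h3 : ∑ v ∈ S, F b v ≤ 1 :=
        (sum_le_sum_of_subset_of_nonneg (subset_univ S) fun v _ _ => hF0 b v).trans (hF1 b)
      have h4 : 0 ≤ B.card * q ^ 2 := by positivity
      nlinarith
    refine (sum_le_sum h1).trans ?_
    rw [sum_const, nsmul_eq_mul, hm]
    exact le_of_eq (by ring)
  have hch := chern_up hM S (fun v => (univ : Finset (Fin P)) ×ˢ {v}) Z (B := K * ν) (m := m)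
    (s := m) hdep hdis (fun v _ ω => hZ0 v ω) (fun v _ ω => hZK v ω) (by positivity) hm0 hmsum
    hm0.le
  have hmin : Λ ≤ min (m ^ 2 / (4 * (K * ν) * m)) (m / (2 * (K * ν))) := by
    have hKν : 0 < K * ν := by positivity
    refine le_min ?_ ?_
    · rw [le_div_iff₀ (by positivity)]
      nlinarith
    · rw [le_div_iff₀ (by positivity)]
      nlinarith
  have hch' : pr (fun ω : Fin P × V → Fin (D * N1) => m + m ≤ ∑ v ∈ S, Z v ω) ≤
      Real.exp (-Λ) := (le_of_eq (pr_inst _ _ _)).trans
        (hch.trans (Real.exp_le_exp.2 (neg_le_neg hmin)))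
  -- many offers
  have hoff : ∀ v ∈ S, pr (fun ω : Fin P × V → Fin (D * N1) => ν ≤ (num U T B ω v : ℝ)) ≤
      Real.exp (-Λ) := by
    intro v _
    have h1 := hO P (D * N1) T U (fun y => if y.1 ∈ B ∧ y.2 = v then (1 : ℝ) else 0) q 1
      B.card ν Λ hM hTq'.le hq0 one_pos hBr hΛ
      (fun y => by
        split_ifs
        · exact zero_le_one
        · exact le_rfl)
      (fun y => by
        split_ifs
        · exact le_rfl
        · exact zero_le_one)
      (by
        rw [← sum_filter, sum_const, nsmul_eq_mul, mul_one]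
        have h3 : (univ.filter (fun y : Fin P × V => y.1 ∈ B ∧ y.2 = v)) ⊆
            B.image (fun b => (b, v)) := by
          intro y hy
          rw [mem_filter] at hy
          exact mem_image.2 ⟨y.1, hy.2.1, Prod.ext rfl hy.2.2.symm⟩
        exact_mod_cast (card_le_card h3).trans card_image_le)
      (by
        have := h2
        nlinarith)
      (by linarith)
    refine le_trans (le_of_eq ?_) h1
    have h3 : ∀ ω : Fin P × V → Fin (D * N1), (num U T B ω v : ℝ) =
        ∑ y ∈ univ.filter (fun y : Fin P × V => y.2 ∈ off U T ω y.1),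
          if y.1 ∈ B ∧ y.2 = v then (1 : ℝ) else 0 := by
      intro ω
      rw [← sum_filter, sum_const, nsmul_eq_mul, mul_one, num]
      have h4 : (univ.filter (fun y : Fin P × V => y.2 ∈ off U T ω y.1)).filter
          (fun y => y.1 ∈ B ∧ y.2 = v) =
          (B.filter (fun b => v ∈ off U T ω b)).image (fun b => (b, v)) := by
        ext ⟨b, x⟩
        simp only [mem_filter, mem_univ, true_and, mem_image, Prod.mk.injEq]
        constructor
        · rintro ⟨h, hb, rfl⟩
          exact ⟨b, ⟨hb, h⟩, rfl, rfl⟩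
        · rintro ⟨b', ⟨hb, h⟩, rfl, rfl⟩
          exact ⟨h, hb, rfl⟩
      rw [h4, card_image_of_injective _ (fun b b' h => (Prod.mk.inj h).1)]
    simp only [h3]
  -- union bound
  have hfin : ∀ ω : Fin P × V → Fin (D * N1), 2 * m ≤
      ∑ b ∈ B, ∑ v ∈ (off U T ω b).filter (fun v => 2 ≤ num U T B ω v), F b v →
      m + m ≤ ∑ v ∈ S, Z v ω ∨ ∃ v ∈ S, ν ≤ (num U T B ω v : ℝ) := by
    intro ω hω
    by_cases hex : ∃ v ∈ S, ν ≤ (num U T B ω v : ℝ)
    · exact Or.inr hex
    · left
      push Not at hex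
      have h1 : ∑ b ∈ B, ∑ v ∈ (off U T ω b).filter (fun v => 2 ≤ num U T B ω v), F b v =
          ∑ v ∈ S, Z v ω := by
        have h3 : ∀ b ∈ B, ∑ v ∈ (off U T ω b).filter (fun v => 2 ≤ num U T B ω v), F b v =
            ∑ v ∈ S, if v ∈ off U T ω b ∧ 2 ≤ num U T B ω v then F b v else 0 := by
          intro b _
          rw [← sum_filter]
          have h4 : ∑ v ∈ (off U T ω b).filter (fun v => 2 ≤ num U T B ω v), F b v =
              ∑ v ∈ ((off U T ω b).filter (fun v => 2 ≤ num U T B ω v)).filter (fun v => v ∈ S),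
                F b v := by
            symm
            refine sum_filter_of_ne fun v _ h => ?_
            by_contra hv
            exact h (hFS b v hv)
          rw [h4]
          refine sum_congr ?_ fun _ _ => rfl
          ext v
          simp only [mem_filter]
          tauto
        rw [sum_congr rfl h3, sum_comm]
        refine sum_congr rfl fun v hv => ?_
        simp only [hZ, hY, if_pos (hex v hv)]
      rw [h1] at hω
      linarith
  refine (pr_union S _ _ (fun v ω => ν ≤ (num U T B ω v : ℝ)) hfin).trans ?_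
  have h6 := sum_le_sum hoff
  rw [sum_const, nsmul_eq_mul] at h6
  linarith

end Pool.Agent.Work.MP_db9399_ow.helper79
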